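import Pool.Agent.Results.MP_c5a51c_co.PolyhedralCounterexample
import Pool.Agent.T9h87.Lin.Final
import Pool.Agent.T9h87.Lin.Core
import Pool.Agent.T9h18.Lin.Top
import Pool.Agent.T9h46.Lin.C
import Pool.Agent.T9h67.Lin.VKF
import Pool.Agent.T9h73.Lin.I
import Pool.Agent.T9h73.Lin.J1
import Pool.Agent.T9h80.Lin.D
import Pool.Agent.T9h80.Lin.G
import Pool.Agent.T9h85.Lin.Center
import Pool.Agent.T9h89.Lin.P

/-! # A simplicial 2-complex with `a = 3` and `b = 5`

The complex consists of the triangles of a quasi-random linear three-uniform hypergraph with seven vertex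
classes (any two triangles share at most one vertex) and of the boundary of an octahedron. Every map of the
vertices to four-space makes two disjoint triangles cross (centre points, a same-type lemma and the
van Kampen-Flores theorem give three large parts and three other large parts of classes whose transversal
triangles all cross, and the hypergraph has an edge in each). The union is embedded in three-space as a
book-like space over the moment map, the vertices on the moment curve give the realisation in five-space. -/

set_option autoImplicit false

namespace Pool.Agent.Results.MP_c5a51c_co.SimplicialCounterexample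

open Pool.Agent.Results.MP_c5a51c_co.PolyhedralCounterexample

/-- A complex is simplicial if each of its members is a simplex, that is the convex hull of a nonempty finite
set of affinely independent points. -/
def IsSimplicial {n : ℕ} (C : Cplx n) : Prop :=
  ∀ P ∈ C.members, ∃ s : Finset (EuclideanSpace ℝ (Fin n)), s.Nonempty ∧
    AffineIndependent ℝ (fun x : s => (x : EuclideanSpace ℝ (Fin n))) ∧
    P = convexHull ℝ (s : Set (EuclideanSpace ℝ (Fin n)))

/-- There is a simplicial `2`-complex `C` with `a(C) = 3` and `b(C) = 5`. -/
theorem result : ∃ C : Cplx 5, IsTwoComplex C ∧ IsSimplicial C ∧ aDim C = 3 ∧ bDim C = 5 :=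
  Pool.Agent.T9h87.Lin.simplicial_of_pieces Pool.Agent.T9h18.Lin.stTop Pool.Agent.T9h73.Lin.stLow
    Pool.Agent.T9h73.Lin.stMom
    (Pool.Agent.T9h87.Lin.core
      (Pool.Agent.T9h80.Lin.stSepAll (Pool.Agent.T9h46.Lin.stStep Pool.Agent.T9h85.Lin.stCenter))
      (Pool.Agent.T9h87.Lin.cross Pool.Agent.T9h67.Lin.vkf) Pool.Agent.T9h80.Lin.stHyp
      Pool.Agent.T9h89.Lin.stPert)

end Pool.Agent.Results.MP_c5a51c_co.SimplicialCounterexample
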